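import Pool.Agent.H65.BF.LQ

open Polynomial Finset

namespace Pool.Agent.H65.BF

open Pool.Agent.H72.BF

noncomputable section

theorem algB_mono {δ δ' : ℕ} {A A' : ℝ} {x : ℂ} (h : AlgB δ A x) (hδ : δ ≤ δ') (hA : A ≤ A') :
    AlgB δ' A' x := by
  obtain ⟨p, h0, h1, h2, h3⟩ := h
  exact ⟨p, h0, h1.trans hδ, fun i => (h2 i).trans hA, h3⟩

theorem intB_mono {δ : ℕ} {A A' : ℝ} {x : ℂ} (h : IntB δ A x) (hA : A ≤ A') :
    IntB δ A' x := by
  obtain ⟨p, h0, h1, h2, h3⟩ := h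
  exact ⟨p, h0, h1, fun i => (h2 i).trans hA, h3⟩

theorem alg_exists {x : ℂ} (hx : IsAlgebraic ℚ x) : ∃ (d : ℕ) (A : ℝ), 0 ≤ A ∧ AlgB d A x := by
  have hx' : IsAlgebraic ℤ x := (IsFractionRing.isAlgebraic_iff ℤ ℚ ℂ).mpr hx
  obtain ⟨p, hp0, hp⟩ := hx'
  refine ⟨p.natDegree, ∑ i ∈ range (p.natDegree + 1), |(p.coeff i : ℝ)|,
    Finset.sum_nonneg fun _ _ => abs_nonneg _, p, hp0, le_rfl, fun i => ?_, hp⟩
  by_cases hi : i ∈ range (p.natDegree + 1)
  · exact Finset.single_le_sum (f := fun i => |(p.coeff i : ℝ)|) (fun _ _ => abs_nonneg _) hi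
  · have : p.coeff i = 0 := coeff_eq_zero_of_natDegree_lt (by
      rw [mem_range] at hi; omega)
    rw [this]
    simpa using Finset.sum_nonneg (s := range (p.natDegree + 1))
      (f := fun i => |(p.coeff i : ℝ)|) fun _ _ => abs_nonneg _

theorem rep_nonneg {ι : Type} [Fintype ι] [DecidableEq ι] {δ : ℕ} {θ : ι → ℂ} {Y : ℝ} {x : ℂ}
    (hδ : 1 ≤ δ) (h : Rep δ θ Y x) : 0 ≤ Y := by
  obtain ⟨c, hc, -⟩ := h
  exact (abs_nonneg _).trans (hc fun _ => ⟨0, hδ⟩)

/-- multiplication by `f` multiplies the bound by `G` -/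
def MulB {ι : Type} [Fintype ι] [DecidableEq ι] (δ : ℕ) (θ : ι → ℂ) (G : ℝ) (f : ℂ) : Prop :=
  ∀ Y x, Rep δ θ Y x → Rep δ θ (G * Y) (f * x)

section

variable {ι : Type} [Fintype ι] [DecidableEq ι] {δ : ℕ} {θ : ι → ℂ}

theorem MulB.one : MulB δ θ 1 1 := fun Y x h => by simpa using h

theorem MulB.mul {G G' : ℝ} {f f' : ℂ} (h : MulB δ θ G f) (h' : MulB δ θ G' f') :
    MulB δ θ (G * G') (f * f') := fun Y x hx => by
  rw [mul_assoc, mul_assoc]; exact h _ _ (h' _ _ hx)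

theorem MulB.pow {G : ℝ} {f : ℂ} (h : MulB δ θ G f) (k : ℕ) : MulB δ θ (G ^ k) (f ^ k) := by
  induction k with
  | zero => simpa using MulB.one
  | succ k ih => rw [pow_succ, pow_succ]; exact ih.mul h

theorem MulB.prod {κ : Type*} (s : Finset κ) {G : κ → ℝ} {f : κ → ℂ}
    (h : ∀ k ∈ s, MulB δ θ (G k) (f k)) : MulB δ θ (∏ k ∈ s, G k) (∏ k ∈ s, f k) := by
  classical
  induction s using Finset.induction_on with
  | empty => simpa using MulB.one
  | insert a s ha ih =>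
    rw [Finset.prod_insert ha, Finset.prod_insert ha]
    exact (h a (Finset.mem_insert_self _ _)).mul (ih fun k hk => h k (Finset.mem_insert_of_mem hk))

theorem MulB.mono {G G' : ℝ} {f : ℂ} (hδ : 1 ≤ δ) (h : MulB δ θ G f) (hG : G ≤ G') :
    MulB δ θ G' f := fun Y x hx => rep_mono (h Y x hx)
      (mul_le_mul_of_nonneg_right hG (rep_nonneg hδ hx))

theorem MulB.add {G G' : ℝ} {f f' : ℂ} (R : RepC δ θ) (h : MulB δ θ G f) (h' : MulB δ θ G' f') :
    MulB δ θ (G + G') (f + f') := fun Y x hx => by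
  rw [add_mul, add_mul]; exact R.add _ _ _ _ (h _ _ hx) (h' _ _ hx)

theorem RepC.mulInt (R : RepC δ θ) (a : ℤ) : MulB δ θ |(a : ℝ)| (a : ℂ) :=
  fun Y x hx => R.smul Y x a hx

theorem RepC.mulTheta (R : RepC δ θ) {B : ℝ} {i : ι} (hB : IntB δ B (θ i)) :
    MulB δ θ (1 + B) (θ i) := fun Y x hx => R.mul Y B i x hB hx

end

/-- the logarithmic parts together -/
theorem total_le {n : ℕ} {N T L0 h : ℕ} {ρ c1 C1 a0 d : ℝ} (hN : 1 ≤ N) (hT : 1 ≤ T)
    (hρ : 0 ≤ ρ) (hc1 : 0 ≤ c1) (hC1 : 0 ≤ C1) (ha0 : 0 ≤ a0) (hd : 0 ≤ d) :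
    (h : ℝ) * (c1 * T + T * Real.log T + ((L0 : ℝ) + 1) * (1 + Real.log (ρ + 2)) +
      (n + 1) * (T * (Real.log N + C1 + 3)) + (n + 1) * ((a0 + a0 * d + 1) * (N * ρ))) ≤
    (c1 + 1 + (n + 1) * (C1 + 4) + (n + 1) * (a0 + a0 * d + 1)) * (h * EE N T L0 ρ) := by
  obtain ⟨a, b, c, d', e, f⟩ := ee_parts (L0 := L0) hN hT hρ
  have hL : (0 : ℝ) ≤ (L0 : ℝ) + 1 := by positivity
  set x1 : ℝ := (T : ℝ) * Real.log T
  set x2 : ℝ := (T : ℝ) * Real.log N with hx2
  set x3 : ℝ := ((L0 : ℝ) + 1) * (1 + Real.log (ρ + 2))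
  set x4 : ℝ := (N : ℝ) * ρ
  have hx3 : 0 ≤ x3 := hL.trans d'
  rw [f]
  have hh : (0 : ℝ) ≤ h := Nat.cast_nonneg _
  have hn : (0 : ℝ) ≤ n := Nat.cast_nonneg _
  have hT0 : (0 : ℝ) ≤ T := by linarith
  set q : ℝ := a0 + a0 * d + 1 with hq
  have hq0 : 0 ≤ q := by rw [hq]; positivity
  have key : c1 * T + x1 + x3 + (n + 1) * (T * (Real.log N + C1 + 3)) + (n + 1) * (q * x4) ≤
      (c1 + 1 + (n + 1) * (C1 + 4) + (n + 1) * q) * (T + x1 + x2 + x3 + x4) := by
    have e1 : (n + 1) * (T * (Real.log N + C1 + 3)) = (n + 1) * x2 + (n + 1) * ((C1 + 3) * T) := by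
      rw [hx2]; ring
    rw [e1]
    have p1 : 0 ≤ ((n : ℝ) + 1) * (C1 + 4) := by positivity
    have p2 : 0 ≤ ((n : ℝ) + 1) * q := by positivity
    have p3 : (n + 1) * x2 ≤ (((n : ℝ) + 1) * (C1 + 4)) * x2 := by
      have : (n : ℝ) + 1 ≤ ((n : ℝ) + 1) * (C1 + 4) := by nlinarith
      exact mul_le_mul_of_nonneg_right this b
    have p4 : ((n : ℝ) + 1) * ((C1 + 3) * T) ≤ (((n : ℝ) + 1) * (C1 + 4)) * T := by
      have : 0 ≤ ((n : ℝ) + 1) * T := by positivity
      nlinarith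
    have r1 : 0 ≤ (c1 + 1 + (n + 1) * (C1 + 4) + (n + 1) * q - 1) * x1 := by
      apply mul_nonneg _ a; linarith
    have r3 : 0 ≤ (c1 + 1 + (n + 1) * (C1 + 4) + (n + 1) * q - 1) * x3 := by
      apply mul_nonneg _ hx3; linarith
    have r2 : 0 ≤ (c1 + 1 + (n + 1) * q) * x2 := by
      apply mul_nonneg _ b; linarith
    have r4 : 0 ≤ (c1 + 1 + (n + 1) * (C1 + 4)) * x4 := by
      apply mul_nonneg _ e; linarith
    have r5 : 0 ≤ (1 + (n + 1) * q) * (T : ℝ) := by
      apply mul_nonneg _ hT0; linarith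
    nlinarith
  calc (h : ℝ) * (c1 * T + x1 + x3 + (n + 1) * (T * (Real.log N + C1 + 3)) +
        (n + 1) * (q * x4))
      ≤ (h : ℝ) * ((c1 + 1 + (n + 1) * (C1 + 4) + (n + 1) * q) * (T + x1 + x2 + x3 + x4)) :=
        mul_le_mul_of_nonneg_left key hh
    _ = _ := by ring


theorem one_add_exp_le {x : ℝ} (hx : 0 ≤ x) : 1 + Real.exp x ≤ Real.exp (x + 1) := by
  have e2 : 1 ≤ Real.exp x := Real.one_le_exp hx
  have e3 : (2 : ℝ) ≤ Real.exp 1 := by
    have := Real.add_one_le_exp (1 : ℝ); linarith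
  rw [Real.exp_add]
  nlinarith

theorem gfac_le {N h : ℕ} {C1 : ℝ} (hN : 1 ≤ N) (hh : 1 ≤ h) (hC1 : 0 ≤ C1) :
    2 * N * Real.exp h * (1 + Real.exp (C1 * h)) ≤ Real.exp (h * (Real.log N + C1 + 3)) := by
  have hN' : (1 : ℝ) ≤ N := by exact_mod_cast hN
  have hh' : (1 : ℝ) ≤ h := by exact_mod_cast hh
  have b1 := one_add_exp_le (x := C1 * h) (by positivity)
  have b2 : (2 : ℝ) ≤ Real.exp 1 := by
    have := Real.add_one_le_exp (1 : ℝ); linarith
  have b3 : (N : ℝ) = Real.exp (Real.log N) := (Real.exp_log (by linarith)).symm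
  have l1 := Real.log_nonneg hN'
  calc 2 * N * Real.exp h * (1 + Real.exp (C1 * h))
      ≤ Real.exp 1 * Real.exp (Real.log N) * Real.exp h * Real.exp (C1 * h + 1) := by
        rw [← b3]; gcongr
    _ = Real.exp (1 + Real.log N + h + (C1 * h + 1)) := by
        rw [← Real.exp_add, ← Real.exp_add, ← Real.exp_add]
    _ ≤ Real.exp (h * (Real.log N + C1 + 3)) := by
        apply Real.exp_le_exp.mpr
        nlinarith

theorem rq (h1 : T_REP) (h2 : T_RG) (h3 : T_ALG) (h4 : T_NU1) (h5 : T_BIN) : T_RQ := by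
  intro n lam hlam δ
  obtain ⟨c1, hc1, hν⟩ := h4
  choose dj Aj hAj0 halg using fun j => alg_exists (hlam.alg j)
  set δ' : ℕ := 1 + δ + ∑ j, dj j with hδ'
  have hδ1 : 1 ≤ δ' := by omega
  set a0 : ℝ := ∑ j, Aj j with ha0
  have ha00 : 0 ≤ a0 := Finset.sum_nonneg fun j _ => hAj0 j
  have halg' : ∀ j, AlgB δ' (Real.exp a0) (Complex.exp (lam j)) := by
    intro j
    refine algB_mono (halg j) ?_ ?_
    · have := Finset.single_le_sum (f := dj) (fun _ _ => Nat.zero_le _) (Finset.mem_univ j)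
      omega
    · have e1 : Aj j ≤ a0 :=
        Finset.single_le_sum (f := Aj) (fun i _ => hAj0 i) (Finset.mem_univ j)
      have := Real.add_one_le_exp a0
      linarith
  choose a ha_ne ha_b ha_int using
    fun j => h3 δ' (Real.exp a0) _ hδ1 (Real.one_le_exp ha00) (halg' j)
  set C1 : ℝ := δ' * (1 + a0) with hC1
  have hδr : (1 : ℝ) ≤ δ' := by exact_mod_cast hδ1
  have hC10 : 0 ≤ C1 := by positivity
  have hC1d : (δ' : ℝ) ≤ C1 := by rw [hC1]; nlinarith
  refine ⟨δ', c1 + 1 + (n + 1) * (C1 + 4) + (n + 1) * (a0 + a0 * δ' + 1), hδ1, by positivity, ?_⟩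
  intro h B hh hB
  have hh' : (1 : ℝ) ≤ h := by exact_mod_cast hh
  have hexph : (1 : ℝ) ≤ Real.exp h := Real.one_le_exp (Nat.cast_nonneg _)
  obtain ⟨ds, hds, hdsb, hdsI⟩ := h3 δ' (Real.exp h) B.bs hδ1 hexph
    (algB_mono hB.hs (by omega) le_rfl)
  choose d hd hdb hdI using fun j => h3 δ' (Real.exp h) (B.b j) hδ1 hexph
    (algB_mono (hB.hb j) (by omega) le_rfl)
  set θ : Ix n → ℂ := Sum.elim (fun j => (d j : ℂ) * B.b j)
    (Sum.elim (fun j => (a j : ℂ) * Complex.exp (lam j)) (fun _ => (ds : ℂ) * B.bs)) with hθ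
  have eb1 : (Real.exp h) ^ δ' ≤ Real.exp (C1 * h) := by
    rw [← Real.exp_nat_mul]
    apply Real.exp_le_exp.mpr
    exact mul_le_mul_of_nonneg_right hC1d (by linarith)
  have eb2 : (Real.exp a0) ^ δ' ≤ Real.exp (C1 * h) := by
    rw [← Real.exp_nat_mul]
    apply Real.exp_le_exp.mpr
    have : (δ' : ℝ) * a0 ≤ C1 := by rw [hC1]; nlinarith
    nlinarith
  have hθI : ∀ i, IntB δ' (Real.exp (C1 * h)) (θ i) := by
    rintro (j | j | u)
    · exact intB_mono (hdI j) eb1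
    · exact intB_mono (ha_int j) eb2
    · exact intB_mono hdsI eb1
  refine ⟨θ, fun i => intB_mono (hθI i) ?_, ?_⟩
  · apply Real.exp_le_exp.mpr
    apply mul_le_mul_of_nonneg_right _ (by linarith)
    have hn : (0 : ℝ) ≤ n := Nat.cast_nonneg _
    have p2 : 0 ≤ ((n : ℝ) + 1) * (a0 + a0 * δ' + 1) := by positivity
    have p3 : C1 ≤ ((n : ℝ) + 1) * (C1 + 4) := by nlinarith
    linarith
  intro N T L0 ρ hN hT hρ m s hm hs
  have R := repC h1 (Ix n) δ' θ hδ1
  have hρ0 : 0 ≤ ρ := by linarith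
  have hN' : (1 : ℝ) ≤ N := by exact_mod_cast hN
  have hT' : (1 : ℝ) ≤ T := by exact_mod_cast hT
  have hlN := Real.log_nonneg hN'
  have hlT := Real.log_nonneg hT'
  have hl3 : 0 ≤ Real.log (ρ + 2) := Real.log_nonneg (by linarith)
  have htot := total_le (n := n) (N := N) (T := T) (L0 := L0) (h := h) (ρ := ρ) (c1 := c1)
    (C1 := C1) (a0 := a0) (d := δ') hN hT hρ0 hc1.le hC10 ha00 (by positivity)
  have hNs : ((N * s : ℕ) : ℝ) ≤ h * (N * ρ) := by
    push_cast
    have : (N : ℝ) * s ≤ N * (ρ * h) := mul_le_mul_of_nonneg_left hs (by linarith)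
    linarith
  set ν : ℤ := (Nat.lcmUpto h : ℤ) with hνd
  have hνb : |(ν : ℝ)| ≤ Real.exp (c1 * h) := by
    rw [hνd]; push_cast; rw [Nat.abs_cast]; exact hν h
  have hνne : ν ≠ 0 := by rw [hνd]; exact_mod_cast Nat.lcmUpto_ne_zero h
  set den : ℤ := (ν * d 0 * ds) ^ (m 0) * (∏ j : Fin n, (d 0 * d j.succ) ^ (m j.succ)) *
    ∏ j, a j ^ (N * s) with hden
  refine ⟨den, ?_, ?_, ?_⟩
  · rw [hden]
    refine mul_ne_zero (mul_ne_zero (pow_ne_zero _ (mul_ne_zero (mul_ne_zero hνne (hd 0)) hds))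
      (Finset.prod_ne_zero_iff.mpr fun j _ => pow_ne_zero _ (mul_ne_zero (hd 0) (hd _))))
      (Finset.prod_ne_zero_iff.mpr fun j _ => pow_ne_zero _ (ha_ne j))
  · -- the size of the denominator
    rw [hden]
    push_cast
    rw [abs_mul, abs_mul, abs_pow, Finset.abs_prod, Finset.abs_prod]
    have q1 : |(ν : ℝ) * d 0 * ds| ^ (m 0) ≤ Real.exp (h * (c1 + 2)) ^ T := by
      have : |(ν : ℝ) * d 0 * ds| ≤ Real.exp (h * (c1 + 2)) := by
        rw [abs_mul, abs_mul]
        calc |(ν : ℝ)| * |(d 0 : ℝ)| * |(ds : ℝ)| ≤ Real.exp (c1 * h) * Real.exp h * Real.exp h := by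
              gcongr
              exact hdb 0
          _ = Real.exp (h * (c1 + 2)) := by
              rw [← Real.exp_add, ← Real.exp_add]; congr 1; ring
      calc |(ν : ℝ) * d 0 * ds| ^ (m 0) ≤ Real.exp (h * (c1 + 2)) ^ (m 0) := by gcongr
        _ ≤ Real.exp (h * (c1 + 2)) ^ T :=
          pow_le_pow_right₀ (Real.one_le_exp (by positivity)) (hm 0)
    have q2 : ∏ j : Fin n, |((d 0 : ℝ) * d j.succ) ^ (m j.succ)| ≤
        (Real.exp (h * 2) ^ T) ^ n := by
      calc ∏ j : Fin n, |((d 0 : ℝ) * d j.succ) ^ (m j.succ)|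
          ≤ ∏ _j : Fin n, Real.exp (h * 2) ^ T := by
            refine Finset.prod_le_prod (fun _ _ => abs_nonneg _) fun j _ => ?_
            rw [abs_pow, abs_mul]
            calc (|(d 0 : ℝ)| * |(d j.succ : ℝ)|) ^ (m j.succ)
                ≤ (Real.exp h * Real.exp h) ^ (m j.succ) := by
                  have := hdb 0
                  have := hdb j.succ
                  gcongr
              _ = Real.exp (h * 2) ^ (m j.succ) := by
                  rw [← Real.exp_add]; congr 2; ring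
              _ ≤ Real.exp (h * 2) ^ T :=
                  pow_le_pow_right₀ (Real.one_le_exp (by positivity)) (hm _)
        _ = _ := by rw [Finset.prod_const, Finset.card_univ, Fintype.card_fin]
    have q3 : ∏ j, |(a j : ℝ) ^ (N * s)| ≤ (Real.exp (h * (a0 * (N * ρ)))) ^ (n + 1) := by
      calc ∏ j, |(a j : ℝ) ^ (N * s)| ≤ ∏ _j : Fin (n + 1), Real.exp (h * (a0 * (N * ρ))) := by
            refine Finset.prod_le_prod (fun _ _ => abs_nonneg _) fun j _ => ?_
            rw [abs_pow]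
            calc |(a j : ℝ)| ^ (N * s) ≤ Real.exp a0 ^ (N * s) := by
                  have := ha_b j
                  gcongr
              _ = Real.exp (((N * s : ℕ) : ℝ) * a0) := by rw [← Real.exp_nat_mul]
              _ ≤ Real.exp (h * (a0 * (N * ρ))) := by
                  apply Real.exp_le_exp.mpr
                  have := mul_le_mul_of_nonneg_right hNs ha00
                  linarith
        _ = _ := by rw [Finset.prod_const, Finset.card_univ, Fintype.card_fin]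
    calc |(ν : ℝ) * d 0 * ds| ^ (m 0) * (∏ j : Fin n, |((d 0 : ℝ) * d j.succ) ^ (m j.succ)|) *
          ∏ j, |(a j : ℝ) ^ (N * s)|
        ≤ Real.exp (h * (c1 + 2)) ^ T * (Real.exp (h * 2) ^ T) ^ n *
          (Real.exp (h * (a0 * (N * ρ)))) ^ (n + 1) := by
          gcongr
      _ = Real.exp (h * ((c1 + 2) * T + n * (2 * T) + (n + 1) * (a0 * (N * ρ)))) := by
          rw [← Real.exp_nat_mul, ← Real.exp_nat_mul, ← Real.exp_nat_mul, ← Real.exp_nat_mul,
            ← Real.exp_add, ← Real.exp_add]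
          congr 1; push_cast; ring
      _ ≤ _ := by
          apply Real.exp_le_exp.mpr
          refine le_trans ?_ htot
          apply mul_le_mul_of_nonneg_left _ (by linarith)
          have hn : (0 : ℝ) ≤ n := Nat.cast_nonneg _
          have hL : (0 : ℝ) ≤ ((L0 : ℝ) + 1) * (1 + Real.log (ρ + 2)) := by positivity
          have w1 : 0 ≤ (T : ℝ) * Real.log T := by positivity
          have w2 : 0 ≤ ((n : ℝ) + 1) * (T * (Real.log N + C1)) := by positivity
          have w3 : 0 ≤ ((n : ℝ) + 1) * ((a0 * δ' + 1) * (N * ρ)) := by positivity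
          have w4 : 0 ≤ (n : ℝ) * T := by positivity
          nlinarith
  · -- the representation
    intro t μ l ht hμ hl
    set G : ℝ := Real.exp (h * (Real.log N + C1 + 3)) with hG
    have hG1 : 1 ≤ G := Real.one_le_exp (by positivity)
    have hgl := gfac_le (N := N) (h := h) (C1 := C1) hN hh hC10
    -- the factors
    have hF : ∀ j : Fin n, MulB δ' θ G ((d 0 : ℂ) * d j.succ * gam B t j.succ) := by
      intro j
      have e0 : (d 0 : ℂ) * d j.succ * gam B t j.succ =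
          (((t j.succ : ℤ) * d j.succ : ℤ) : ℂ) * θ (Sum.inl 0) +
          ((-((t 0 : ℤ) * d 0) : ℤ) : ℂ) * θ (Sum.inl j.succ) := by
        simp only [hθ, Sum.elim_inl, gam, Fin.cases_succ]
        push_cast; ring
      rw [e0]
      refine ((((R.mulInt _).mul (R.mulTheta (hθI (Sum.inl 0)))).add R
        ((R.mulInt _).mul (R.mulTheta (hθI (Sum.inl j.succ)))))).mono hδ1 ?_
      refine le_trans ?_ hgl
      push_cast
      rw [abs_neg, abs_mul, abs_mul, Nat.abs_cast, Nat.abs_cast]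
      have t1 : (t j.succ : ℝ) ≤ N := by exact_mod_cast ht _
      have t2 : (t 0 : ℝ) ≤ N := by exact_mod_cast ht _
      have t3 := hdb j.succ
      have t4 := hdb 0
      calc (t j.succ : ℝ) * |(d j.succ : ℝ)| * (1 + Real.exp (C1 * h)) +
            (t 0 : ℝ) * |(d 0 : ℝ)| * (1 + Real.exp (C1 * h))
          ≤ N * Real.exp h * (1 + Real.exp (C1 * h)) + N * Real.exp h * (1 + Real.exp (C1 * h)) := by
            gcongr
        _ = 2 * N * Real.exp h * (1 + Real.exp (C1 * h)) := by ring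
    have hF2 : MulB δ' θ ((G ^ T) ^ n)
        (∏ j : Fin n, ((d 0 : ℂ) * d j.succ * gam B t j.succ) ^ (m j.succ)) := by
      refine (MulB.prod Finset.univ fun j _ => (hF j).pow (m j.succ)).mono hδ1 ?_
      calc ∏ j : Fin n, G ^ (m j.succ) ≤ ∏ _j : Fin n, G ^ T :=
            Finset.prod_le_prod (fun _ _ => by positivity) fun j _ =>
              pow_le_pow_right₀ hG1 (hm _)
        _ = _ := by rw [Finset.prod_const, Finset.card_univ, Fintype.card_fin]
    have hE : ∀ j, MulB δ' θ (Real.exp (h * ((a0 + a0 * δ' + 1) * (N * ρ))))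
        ((a j : ℂ) ^ (N * s) * Complex.exp (lam j) ^ (t j * s)) := by
      intro j
      have e0 : (a j : ℂ) ^ (N * s) * Complex.exp (lam j) ^ (t j * s) =
          ((a j ^ ((N - t j) * s) : ℤ) : ℂ) * θ (Sum.inr (Sum.inl j)) ^ (t j * s) := by
        simp only [hθ, Sum.elim_inr, Sum.elim_inl]
        have : N * s = (N - t j) * s + t j * s := by
          rw [← Nat.add_mul, Nat.sub_add_cancel (ht j)]
        rw [this]
        push_cast
        rw [pow_add, mul_pow]; ring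
      rw [e0]
      have hI : IntB δ' (Real.exp a0 ^ δ') (θ (Sum.inr (Sum.inl j))) := ha_int j
      refine ((R.mulInt _).mul ((R.mulTheta hI).pow (t j * s))).mono hδ1 ?_
      push_cast
      rw [abs_pow]
      have u1 : 1 + Real.exp a0 ^ δ' ≤ Real.exp (a0 * δ' + 1) := by
        rw [← Real.exp_nat_mul, mul_comm (δ' : ℝ) a0]
        exact one_add_exp_le (by positivity)
      have u2 : (1 : ℝ) ≤ Real.exp a0 := Real.one_le_exp ha00
      have u3 : (1 : ℝ) ≤ Real.exp (a0 * δ' + 1) := Real.one_le_exp (by positivity)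
      have u4 := ha_b j
      calc |(a j : ℝ)| ^ ((N - t j) * s) * (1 + Real.exp a0 ^ δ') ^ (t j * s)
          ≤ Real.exp a0 ^ ((N - t j) * s) * (Real.exp (a0 * δ' + 1)) ^ (t j * s) := by gcongr
        _ ≤ Real.exp a0 ^ (N * s) * (Real.exp (a0 * δ' + 1)) ^ (N * s) := by
            have v1 : (N - t j) * s ≤ N * s := Nat.mul_le_mul_right _ (Nat.sub_le _ _)
            have v2 : t j * s ≤ N * s := Nat.mul_le_mul_right _ (ht j)
            gcongr
        _ = Real.exp (((N * s : ℕ) : ℝ) * (a0 + a0 * δ' + 1)) := by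
            rw [← Real.exp_nat_mul, ← Real.exp_nat_mul, ← Real.exp_add]; congr 1; ring
        _ ≤ _ := by
            apply Real.exp_le_exp.mpr
            have := mul_le_mul_of_nonneg_right hNs (show (0 : ℝ) ≤ a0 + a0 * δ' + 1 by positivity)
            linarith
    have hE2 : MulB δ' θ ((Real.exp (h * ((a0 + a0 * δ' + 1) * (N * ρ)))) ^ (n + 1))
        (∏ j, (a j : ℂ) ^ (N * s) * Complex.exp (lam j) ^ (t j * s)) := by
      have := MulB.prod (δ := δ') (θ := θ) Finset.univ fun j _ => hE j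
      rwa [Finset.prod_const, Finset.card_univ, Fintype.card_fin] at this
    -- the G-part
    set Dd : ℝ := (T : ℝ) ^ T * Real.exp (h * ((L0 + 1) * (1 + Real.log (ρ + 2)))) with hDd
    have hder : ∀ k ≤ m 0, ‖(derivative^[k] (RP h μ l)).eval (s : ℂ)‖ ≤ Dd := by
      intro k hk
      have hs' : ‖(s : ℂ)‖ ≤ ρ * h := by simpa using hs
      refine (h5 h μ l L0 k ρ (s : ℂ) hh hμ hl hρ0 hs').trans ?_
      have hk' : (k.factorial : ℝ) ≤ (T : ℝ) ^ T := by
        have : k.factorial ≤ T ^ T :=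
          (Nat.factorial_le (hk.trans (hm 0))).trans (Nat.factorial_le_pow T)
        exact_mod_cast this
      rw [hDd]
      gcongr
    have hRG := h2 (Ix n) δ' θ (Sum.inl 0) (Sum.inr (Sum.inr ())) (Real.exp h)
      (Real.exp (C1 * h)) (d 0) ds (B.b 0) B.bs hδ1 hexph (Real.one_le_exp (by positivity))
      (hθI _) (hθI _) rfl rfl (hdb 0) hdsb h μ l (m 0) s (t 0) N Dd hμ (ht 0) hN
      (by positivity) hder
    have hval : (den : ℂ) * (cf B h t μ l m (s : ℂ) * ∏ j, Complex.exp (lam j) ^ (t j * s)) =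
        (∏ j, (a j : ℂ) ^ (N * s) * Complex.exp (lam j) ^ (t j * s)) *
        ((∏ j : Fin n, ((d 0 : ℂ) * d j.succ * gam B t j.succ) ^ (m j.succ)) *
        (((Nat.lcmUpto h : ℂ) * d 0 * ds) ^ (m 0) *
      (Gf (B.b 0) (-(B.bs * (t 0 : ℂ))) (RP h μ l) (m 0)).eval (s : ℂ))) := by
      rw [hden, hνd]
      unfold cf
      have g0 : gam B t 0 = -(B.bs * (t 0 : ℂ)) := by simp [gam]
      rw [g0]
      push_cast
      rw [Finset.prod_mul_distrib]
      have : ∏ j : Fin n, ((d 0 : ℂ) * d j.succ * gam B t j.succ) ^ (m j.succ) =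
          (∏ j : Fin n, ((d 0 : ℂ) * d j.succ) ^ (m j.succ)) *
          ∏ j : Fin n, gam B t j.succ ^ (m j.succ) := by
        rw [← Finset.prod_mul_distrib]
        refine Finset.prod_congr rfl fun j _ => ?_
        rw [mul_pow]
      rw [this]
      ring
    rw [hval]
    refine rep_mono (hE2 _ _ (hF2 _ _ hRG)) ?_
    have x1 : (Nat.lcmUpto h : ℝ) ^ (m 0) ≤ Real.exp (h * c1) ^ T := by
      have w : (1 : ℝ) ≤ Real.exp (h * c1) := Real.one_le_exp (by positivity)
      have w2 : (Nat.lcmUpto h : ℝ) ≤ Real.exp (h * c1) := by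
        rw [mul_comm]; exact hν h
      calc (Nat.lcmUpto h : ℝ) ^ (m 0) ≤ Real.exp (h * c1) ^ (m 0) := by gcongr
        _ ≤ _ := pow_le_pow_right₀ w (hm 0)
    have x2 : (2 * N * Real.exp h * (1 + Real.exp (C1 * h))) ^ (m 0) ≤ G ^ T := by
      calc (2 * N * Real.exp h * (1 + Real.exp (C1 * h))) ^ (m 0) ≤ G ^ (m 0) := by gcongr
        _ ≤ _ := pow_le_pow_right₀ hG1 (hm 0)
    have x3 : Dd ≤ Real.exp (h * (T * Real.log T + ((L0 : ℝ) + 1) * (1 + Real.log (ρ + 2)))) := by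
      rw [hDd]
      have : (T : ℝ) ^ T = Real.exp (T * Real.log T) := by
        rw [Real.exp_nat_mul, Real.exp_log (by linarith)]
      rw [this, ← Real.exp_add]
      apply Real.exp_le_exp.mpr
      have : 0 ≤ (T : ℝ) * Real.log T := by positivity
      nlinarith
    calc Real.exp (h * ((a0 + a0 * δ' + 1) * (N * ρ))) ^ (n + 1) * ((G ^ T) ^ n *
          ((Nat.lcmUpto h : ℝ) ^ (m 0) * Dd *
            (2 * N * Real.exp h * (1 + Real.exp (C1 * h))) ^ (m 0)))
        ≤ Real.exp (h * ((a0 + a0 * δ' + 1) * (N * ρ))) ^ (n + 1) * ((G ^ T) ^ n *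
          (Real.exp (h * c1) ^ T *
            Real.exp (h * (T * Real.log T + ((L0 : ℝ) + 1) * (1 + Real.log (ρ + 2)))) *
            G ^ T)) := by gcongr
      _ = Real.exp (h * (c1 * T + T * Real.log T + ((L0 : ℝ) + 1) * (1 + Real.log (ρ + 2)) +
            (n + 1) * (T * (Real.log N + C1 + 3)) +
            (n + 1) * ((a0 + a0 * δ' + 1) * (N * ρ)))) := by
          rw [hG, ← Real.exp_nat_mul, ← Real.exp_nat_mul, ← Real.exp_nat_mul, ← Real.exp_nat_mul,
            ← Real.exp_add, ← Real.exp_add, ← Real.exp_add, ← Real.exp_add]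
          congr 1; push_cast; ring
      _ ≤ _ := Real.exp_le_exp.mpr htot

end

end Pool.Agent.H65.BF
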