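import Pool.Agent.H65.BF.LQ

open Polynomial Finset

namespace Pool.Agent.H65.BF

open Pool.Agent.H72.BF

noncomputable section

theorem aux (h1 : T_RQ) (h2 : T_SIE) : T_AUX := by
  intro n lam hlam δ
  obtain ⟨δ', c, hδ', hc, H⟩ := h1 n lam hlam δ
  set r := Fintype.card (Ix n) with hr
  refine ⟨δ' ^ r, n + 3 + c, Nat.one_le_pow _ _ hδ', by positivity, ?_⟩
  intro h B hh hB N T L0 σ hN hT hσ hcount
  obtain ⟨θ, hθ, H2⟩ := H h B hh hB
  have hσ' : (1 : ℝ) ≤ σ := by exact_mod_cast hσ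
  have hh' : (1 : ℝ) ≤ h := by exact_mod_cast hh
  have hσ0 : (0 : ℝ) ≤ σ := by linarith
  have hE1 := ee_one (L0 := L0) hN hT hσ0
  set E : ℝ := h * EE N T L0 σ with hE
  have hE0 : 0 ≤ E := by positivity
  have H3 : ∀ (m : Fin (n + 1) → Fin (T + 1)) (s : Fin (σ * h)), ∃ (den : ℤ)
      (cc : Idx n N h L0 → (Ix n → Fin δ') → ℤ), den ≠ 0 ∧
      (∀ u e, |(cc u e : ℝ)| ≤ Real.exp (c * E)) ∧
      ∀ u : Idx n N h L0, (den : ℂ) * (cf B h (tt u) u.2.1 u.2.2 (fun j => (m j : ℕ)) ((s : ℕ) : ℂ) *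
        ∏ j, Complex.exp (lam j) ^ (tt u j * s)) =
        ∑ e : Ix n → Fin δ', (cc u e : ℂ) * ∏ i, θ i ^ (e i : ℕ) := by
    intro m s
    have hs : ((s : ℕ) : ℝ) ≤ (σ : ℝ) * h := by exact_mod_cast s.2.le
    obtain ⟨den, hden, -, H4⟩ := H2 N T L0 σ hN hT hσ' (fun j => (m j : ℕ)) s
      (fun j => Nat.lt_succ_iff.mp (m j).2) hs
    choose cc hcc1 hcc2 using fun u : Idx n N h L0 =>
      H4 (tt u) u.2.1 u.2.2 (tt_le u) u.2.1.2.le (Nat.lt_succ_iff.mp u.2.2.2)
    exact ⟨den, cc, hden, hcc1, hcc2⟩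
  choose den cc hden hcc1 hcc2 using H3
  have hY : (1 : ℝ) ≤ Real.exp (c * E) := Real.one_le_exp (by positivity)
  have hcardV : Fintype.card ((Fin (n + 1) → Fin (T + 1)) × Fin (σ * h) × (Ix n → Fin δ')) =
      (T + 1) ^ (n + 1) * (σ * h * δ' ^ r) := by
    simp only [Fintype.card_prod, Fintype.card_pi, Fintype.card_fin, Finset.prod_const,
      Finset.card_univ, ← hr]
  have hcardU : Fintype.card (Idx n N h L0) = N ^ (n + 1) * (h * (L0 + 1)) := by
    simp [Idx]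
  obtain ⟨p, hp0, hp1, hp2⟩ := h2 (Idx n N h L0)
    ((Fin (n + 1) → Fin (T + 1)) × Fin (σ * h) × (Ix n → Fin δ'))
    (fun v u => cc v.1 v.2.1 u v.2.2) (Real.exp (c * E)) hY
    (fun v u => hcc1 _ _ _ _) (by
      rw [hcardV, hcardU]
      calc 2 * ((T + 1) ^ (n + 1) * (σ * h * δ' ^ r))
          = (2 * (T + 1) ^ (n + 1) * σ * δ' ^ r) * h := by ring
        _ ≤ (N ^ (n + 1) * (L0 + 1)) * h := Nat.mul_le_mul_right _ hcount
        _ = N ^ (n + 1) * (h * (L0 + 1)) := by ring) (by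
      rw [hcardV]
      have : 0 < δ' := hδ'
      positivity)
  refine ⟨p, hp0, fun u => (hp2 u).trans ?_, ?_⟩
  · calc (Fintype.card (Idx n N h L0) : ℝ) * Real.exp (c * E)
        ≤ Real.exp (((n : ℝ) + 3) * E) * Real.exp (c * E) := by
          have := card_idx n (L0 := L0) hN hT hσ0 hh
          gcongr
      _ = Real.exp ((n + 3 + c) * E) := by
          rw [← Real.exp_add]; congr 1; ring
  · intro m hm s hs
    have hms : m = fun j => (((⟨m j, Nat.lt_succ_iff.mpr (hm j)⟩ : Fin (T + 1)) : ℕ)) := rfl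
    set m' : Fin (n + 1) → Fin (T + 1) := fun j => ⟨m j, Nat.lt_succ_iff.mpr (hm j)⟩ with hm'
    set s' : Fin (σ * h) := ⟨s, hs⟩ with hs'
    have key : (den m' s' : ℂ) * qq lam B p m s = 0 := by
      unfold qq
      rw [Finset.mul_sum]
      have e1 : ∀ u : Idx n N h L0, (den m' s' : ℂ) * ((p u : ℂ) * cf B h (tt u) u.2.1 u.2.2 m (s : ℂ) *
          ∏ j, Complex.exp (lam j) ^ (tt u j * s)) =
          ∑ e : Ix n → Fin δ', ((cc m' s' u e * p u : ℤ) : ℂ) * ∏ i, θ i ^ (e i : ℕ) := by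
        intro u
        have := hcc2 m' s' u
        have e2 : (den m' s' : ℂ) * ((p u : ℂ) * cf B h (tt u) u.2.1 u.2.2 m (s : ℂ) *
          ∏ j, Complex.exp (lam j) ^ (tt u j * s)) = (p u : ℂ) * ((den m' s' : ℂ) *
          (cf B h (tt u) u.2.1 u.2.2 (fun j => (m' j : ℕ)) ((s' : ℕ) : ℂ) *
          ∏ j, Complex.exp (lam j) ^ (tt u j * s'))) := by
          simp only [hm', hs']; ring
        rw [e2, this, Finset.mul_sum]
        refine Finset.sum_congr rfl fun e _ => ?_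
        push_cast; ring
      rw [Finset.sum_congr rfl fun u _ => e1 u, Finset.sum_comm]
      refine Finset.sum_eq_zero fun e _ => ?_
      rw [← Finset.sum_mul, ← Int.cast_sum, hp1 (m', s', e), Int.cast_zero, zero_mul]
    rcases mul_eq_zero.mp key with h5 | h5
    · exact absurd (by exact_mod_cast h5) (hden m' s')
    · exact h5

end

end Pool.Agent.H65.BF
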