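import Pool.Agent.H65.BF.Tools

open Polynomial Finset

namespace Pool.Agent.H65.BF

open Pool.Agent.H72.BF

noncomputable section

theorem ee_parts {N T L0 : ℕ} {ρ : ℝ} (hN : 1 ≤ N) (hT : 1 ≤ T) (hρ : 0 ≤ ρ) :
    0 ≤ (T : ℝ) * Real.log T ∧ 0 ≤ (T : ℝ) * Real.log N ∧ (1 : ℝ) ≤ T ∧
    ((L0 : ℝ) + 1) ≤ ((L0 : ℝ) + 1) * (1 + Real.log (ρ + 2)) ∧ 0 ≤ (N : ℝ) * ρ ∧
    EE N T L0 ρ = T + T * Real.log T + T * Real.log N +
      ((L0 : ℝ) + 1) * (1 + Real.log (ρ + 2)) + N * ρ := by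
  have hN' : (1 : ℝ) ≤ N := by exact_mod_cast hN
  have hT' : (1 : ℝ) ≤ T := by exact_mod_cast hT
  have l1 := Real.log_nonneg hN'
  have l2 := Real.log_nonneg hT'
  have l3 : 0 ≤ Real.log (ρ + 2) := Real.log_nonneg (by linarith)
  have hL : (0 : ℝ) ≤ (L0 : ℝ) + 1 := by positivity
  refine ⟨by positivity, by positivity, hT', ?_, by positivity, ?_⟩
  · nlinarith
  · unfold EE; ring

theorem ee_one {N T L0 : ℕ} {ρ : ℝ} (hN : 1 ≤ N) (hT : 1 ≤ T) (hρ : 0 ≤ ρ) :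
    (1 : ℝ) ≤ EE N T L0 ρ := by
  obtain ⟨a, b, c, d, e, f⟩ := ee_parts (L0 := L0) hN hT hρ
  rw [f]
  have : (0 : ℝ) ≤ (L0 : ℝ) + 1 := by positivity
  linarith

theorem card_idx (n : ℕ) {N T h L0 : ℕ} {ρ : ℝ} (hN : 1 ≤ N) (hT : 1 ≤ T) (hρ : 0 ≤ ρ)
    (hh : 1 ≤ h) : (Fintype.card (Idx n N h L0) : ℝ) ≤
      Real.exp (((n : ℝ) + 3) * (h * EE N T L0 ρ)) := by
  obtain ⟨a, b, c, d, e, f⟩ := ee_parts (L0 := L0) hN hT hρ
  have hN' : (1 : ℝ) ≤ N := by exact_mod_cast hN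
  have hh' : (1 : ℝ) ≤ h := by exact_mod_cast hh
  have hL : (0 : ℝ) ≤ (L0 : ℝ) + 1 := by positivity
  have hE1 := ee_one (L0 := L0) hN hT hρ
  have hE : EE N T L0 ρ ≤ h * EE N T L0 ρ := by nlinarith
  have hlog : Real.log N ≤ h * EE N T L0 ρ := by
    have l1 := Real.log_nonneg hN'
    have : Real.log N ≤ T * Real.log N := by nlinarith
    linarith
  have h1 : (N : ℝ) ≤ Real.exp (h * EE N T L0 ρ) := by
    rw [← Real.log_le_iff_le_exp (by linarith)]; exact hlog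
  have h2 : (h : ℝ) ≤ Real.exp (h * EE N T L0 ρ) := by
    have := Real.add_one_le_exp (h * EE N T L0 ρ)
    nlinarith
  have h3 : ((L0 : ℝ) + 1) ≤ Real.exp (h * EE N T L0 ρ) := by
    have := Real.add_one_le_exp (h * EE N T L0 ρ)
    linarith
  have hcard : (Fintype.card (Idx n N h L0) : ℝ) = (N : ℝ) ^ (n + 1) * (h * ((L0 : ℝ) + 1)) := by
    simp [Idx]
  rw [hcard]
  calc (N : ℝ) ^ (n + 1) * (h * ((L0 : ℝ) + 1)) ≤ Real.exp (h * EE N T L0 ρ) ^ (n + 1) *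
        (Real.exp (h * EE N T L0 ρ) * Real.exp (h * EE N T L0 ρ)) := by gcongr
    _ = Real.exp (((n : ℝ) + 3) * (h * EE N T L0 ρ)) := by
        rw [← Real.exp_add, ← Real.exp_nat_mul, ← Real.exp_add]
        congr 1; push_cast; ring

theorem tt_le {n N h L0 : ℕ} (u : Idx n N h L0) (j : Fin (n + 1)) : tt u j ≤ N :=
  (u.1 j).2.le

theorem lq (h1 : T_REP) (h2 : T_LIO) (h3 : T_RQ) : T_LQ := by
  intro n lam hlam δ
  obtain ⟨δ', c, hδ', hc, H⟩ := h3 n lam hlam δ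
  set r := Fintype.card (Ix n) with hr
  set k := δ' ^ r with hk
  have hk1 : 1 ≤ k := Nat.one_le_pow _ _ hδ'
  refine ⟨k, k * (k + (n + 3) + c + (c + 1) * (δ' * r)) + c, by positivity, ?_⟩
  intro h B hh hB N T L0 ρ hN hT hρ p P hP hp m s hm hs hq
  obtain ⟨θ, hθ, H2⟩ := H h B hh hB
  obtain ⟨den, hden, hdenb, H3⟩ := H2 N T L0 ρ hN hT hρ m s hm hs
  have R := repC h1 (Ix n) δ' θ hδ'
  have hρ0 : 0 ≤ ρ := by linarith
  have hh' : (1 : ℝ) ≤ h := by exact_mod_cast hh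
  have hE1 := ee_one (L0 := L0) hN hT hρ0
  set E : ℝ := h * EE N T L0 ρ with hE
  have hEh : (h : ℝ) ≤ E := by rw [hE]; nlinarith
  have hE1' : (1 : ℝ) ≤ E := by linarith
  -- the representation
  have hrep : Rep δ' θ (∑ u : Idx n N h L0, |(p u : ℝ)| * Real.exp (c * E))
      (∑ u : Idx n N h L0, (p u : ℂ) * ((den : ℂ) * (cf B h (tt u) u.2.1 u.2.2 m (s : ℂ) *
        ∏ j, Complex.exp (lam j) ^ (tt u j * s)))) := by
    apply R.sum
    intro u _
    apply R.smul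
    exact H3 (tt u) u.2.1 u.2.2 (tt_le u) u.2.1.2.le (Nat.lt_succ_iff.mp u.2.2.2)
  have hval : (∑ u : Idx n N h L0, (p u : ℂ) * ((den : ℂ) * (cf B h (tt u) u.2.1 u.2.2 m (s : ℂ) *
        ∏ j, Complex.exp (lam j) ^ (tt u j * s)))) = (den : ℂ) * qq lam B p m s := by
    unfold qq
    rw [Finset.mul_sum]
    refine Finset.sum_congr rfl fun u _ => ?_
    ring
  rw [hval] at hrep
  set Y : ℝ := Real.exp ((n + 3 + c) * E) * P with hY
  have hYb : ∑ u : Idx n N h L0, |(p u : ℝ)| * Real.exp (c * E) ≤ Y := by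
    calc ∑ u : Idx n N h L0, |(p u : ℝ)| * Real.exp (c * E)
        ≤ ∑ _u : Idx n N h L0, P * Real.exp (c * E) :=
          Finset.sum_le_sum fun u _ => mul_le_mul_of_nonneg_right (hp u) (Real.exp_pos _).le
      _ = (Fintype.card (Idx n N h L0) : ℝ) * (P * Real.exp (c * E)) := by
          rw [Finset.sum_const, Finset.card_univ, nsmul_eq_mul]
      _ ≤ Real.exp (((n : ℝ) + 3) * E) * (P * Real.exp (c * E)) := by
          have := card_idx n (L0 := L0) hN hT hρ0 hh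
          gcongr
      _ = Y := by
          rw [hY, add_mul _ c, Real.exp_add]; ring
  have hY1 : 1 ≤ Y := by
    rw [hY]
    have : (1 : ℝ) ≤ Real.exp ((n + 3 + c) * E) := Real.one_le_exp (by positivity)
    nlinarith
  have hx0 : (den : ℂ) * qq lam B p m s ≠ 0 := mul_ne_zero (by exact_mod_cast hden) hq
  have hL := h2 (Ix n) δ' θ (fun _ => Real.exp (c * h)) Y _ hδ' hY1 hθ (rep_mono hrep hYb) hx0
  rw [Finset.prod_const, Finset.card_univ, ← hr, norm_mul] at hL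
  have hdn : ‖(den : ℂ)‖ ≤ Real.exp (c * E) := by
    have : ‖(den : ℂ)‖ = |(den : ℝ)| := by
      rw [← Complex.ofReal_intCast, Complex.norm_real, Real.norm_eq_abs]
    rw [this]; exact hdenb
  refine hL.trans ?_
  have b1 : ((δ' : ℝ) ^ r) ≤ Real.exp (k * E) := by
    have : ((δ' : ℝ) ^ r) = (k : ℝ) := by rw [hk]; push_cast; rfl
    rw [this]
    have h5 := Real.add_one_le_exp ((k : ℝ) * E)
    have : (k : ℝ) ≤ k * E := le_mul_of_one_le_right (Nat.cast_nonneg _) hE1'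
    linarith
  have b2 : 1 + Real.exp (c * h) ≤ Real.exp ((c + 1) * E) := by
    have e1 : Real.exp (c * h) ≤ Real.exp (c * E) := by
      apply Real.exp_le_exp.mpr; exact mul_le_mul_of_nonneg_left hEh hc.le
    have e2 : 1 ≤ Real.exp (c * E) := Real.one_le_exp (by positivity)
    have e3 : (2 : ℝ) ≤ Real.exp E := by
      have := Real.add_one_le_exp E; linarith
    have e4 : Real.exp ((c + 1) * E) = Real.exp (c * E) * Real.exp E := by
      rw [← Real.exp_add]; congr 1; ring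
    rw [e4]
    nlinarith
  have b3 : ((1 + Real.exp (c * h)) ^ δ') ^ r ≤ Real.exp ((c + 1) * (δ' * r) * E) := by
    calc ((1 + Real.exp (c * h)) ^ δ') ^ r ≤ (Real.exp ((c + 1) * E) ^ δ') ^ r := by gcongr
      _ = Real.exp ((c + 1) * (δ' * r) * E) := by
        rw [← pow_mul, ← Real.exp_nat_mul]; congr 1; push_cast; ring
  have hP0 : 0 ≤ P := by linarith
  calc ((δ' : ℝ) ^ r * Y * ((1 + Real.exp (c * h)) ^ δ') ^ r) ^ (δ' ^ r) *
        (‖(den : ℂ)‖ * ‖qq lam B p m s‖)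
      ≤ (Real.exp (k * E) * Y * Real.exp ((c + 1) * (δ' * r) * E)) ^ k *
        (Real.exp (c * E) * ‖qq lam B p m s‖) := by
        rw [← hk]; gcongr
    _ = P ^ k * Real.exp ((k * (k + (n + 3) + c + (c + 1) * (δ' * r)) + c) * E) *
        ‖qq lam B p m s‖ := by
        have e1 : Real.exp (k * E) * Y * Real.exp ((c + 1) * (δ' * r) * E) =
            P * Real.exp ((k + (n + 3) + c + (c + 1) * (δ' * r)) * E) := by
          rw [hY]
          have : (k + (n + 3) + c + (c + 1) * (δ' * r)) * E = k * E + (n + 3 + c) * E +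
            (c + 1) * (δ' * r) * E := by ring
          rw [this, Real.exp_add, Real.exp_add]; ring
        rw [e1, mul_pow, ← Real.exp_nat_mul, add_mul _ c E, Real.exp_add (_ * E)]
        rw [← mul_assoc (k : ℝ) _ E]
        ring

end

end Pool.Agent.H65.BF
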