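import Pool.Agent.H65.BF.Tools

open Polynomial Finset

namespace Pool.Agent.H65.BF

open Pool.Agent.H72.BF

noncomputable section

theorem rg (h1 : T_REP) (h2 : T_NU2) (h3 : T_GFS) : T_RG := by
  intro ι _ _ δ' θ i0 i1 A Bd d0 d1 b0 bs hδ hA hBd hI0 hI1 hθ0 hθ1 hd0 hd1 h μ l m s t0 N D hμ
    ht hN hD hder
  have R := repC h1 ι δ' θ hδ
  have hN' : (1 : ℝ) ≤ N := by exact_mod_cast hN
  have ht' : (t0 : ℝ) ≤ N := by exact_mod_cast ht
  have hν : (0 : ℝ) ≤ (Nat.lcmUpto h : ℝ) := Nat.cast_nonneg _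
  choose! cc hcc using fun k (hk : k ≤ m) => h2 h μ l k m s hμ hk
  have hcb : ∀ k ≤ m, |(cc k : ℝ)| ≤ (Nat.lcmUpto h : ℝ) ^ m * D := by
    intro k hk
    have e1 : |(cc k : ℝ)| = ‖(cc k : ℂ)‖ := by
      rw [← Complex.ofReal_intCast, Complex.norm_real, Real.norm_eq_abs]
    rw [e1, ← hcc k hk, norm_mul, norm_pow]
    have e2 : ‖(Nat.lcmUpto h : ℂ)‖ = (Nat.lcmUpto h : ℝ) := by simp
    rw [e2]
    exact mul_le_mul_of_nonneg_left (hder k hk) (pow_nonneg hν _)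
  -- the k-th term
  set a : ℕ → ℤ := fun k => (m.choose k : ℤ) * cc k * d0 ^ (m - k) * d1 ^ k * (-(t0 : ℤ)) ^ (m - k)
    with ha
  have hterm : ∀ k ∈ range (m + 1), Rep δ' θ (|(a k : ℝ)| * (1 + Bd) ^ m)
      ((a k : ℂ) * (θ i0 ^ k * θ i1 ^ (m - k))) := by
    intro k hk
    have hk' : k ≤ m := Nat.lt_succ_iff.mp (mem_range.mp hk)
    apply R.smul
    have r1 : Rep δ' θ 1 1 := by simpa using R.int 1
    have r2 := R.pow hI0 (R.pow hI1 r1 (m - k)) k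
    have e : (1 + Bd) ^ k * ((1 + Bd) ^ (m - k) * 1) = (1 + Bd) ^ m := by
      rw [mul_one, ← pow_add]; congr 1; omega
    rw [e, mul_one] at r2
    exact r2
  have hsum := R.sum (range (m + 1)) _ _ hterm
  have hval : ((Nat.lcmUpto h : ℂ) * d0 * d1) ^ m *
      (Gf b0 (-(bs * (t0 : ℂ))) (RP h μ l) m).eval (s : ℂ) =
      ∑ k ∈ range (m + 1), (a k : ℂ) * (θ i0 ^ k * θ i1 ^ (m - k)) := by
    rw [h3, eval_finsetSum, Finset.mul_sum]
    refine Finset.sum_congr rfl fun k hk => ?_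
    have hk' : k ≤ m := Nat.lt_succ_iff.mp (mem_range.mp hk)
    rw [eval_mul, eval_C, ha]
    push_cast
    rw [← hcc k hk', hθ0, hθ1]
    have e1 : (d0 : ℂ) ^ m = d0 ^ k * d0 ^ (m - k) := by rw [← pow_add]; congr 1; omega
    have e2 : (d1 : ℂ) ^ m = d1 ^ k * d1 ^ (m - k) := by rw [← pow_add]; congr 1; omega
    have e3 : (-(bs * (t0 : ℂ))) ^ (m - k) = bs ^ (m - k) * (-(t0 : ℂ)) ^ (m - k) := by
      rw [← mul_pow]; ring
    rw [mul_pow, mul_pow, e1, e2, e3, mul_pow, mul_pow]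
    ring
  rw [hval]
  refine rep_mono hsum ?_
  have hb : ∀ k ∈ range (m + 1), |(a k : ℝ)| * (1 + Bd) ^ m ≤
      (m.choose k : ℝ) * ((Nat.lcmUpto h : ℝ) ^ m * D * (N * A * (1 + Bd)) ^ m) := by
    intro k hk
    have hk' : k ≤ m := Nat.lt_succ_iff.mp (mem_range.mp hk)
    rw [ha]
    push_cast
    rw [abs_mul, abs_mul, abs_mul, abs_mul, abs_pow, abs_pow, abs_pow, abs_neg, Nat.abs_cast,
      Nat.abs_cast]
    have q1 : |(d0 : ℝ)| ^ (m - k) ≤ A ^ (m - k) := pow_le_pow_left₀ (abs_nonneg _) hd0 _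
    have q2 : |(d1 : ℝ)| ^ k ≤ A ^ k := pow_le_pow_left₀ (abs_nonneg _) hd1 _
    have q3 : (t0 : ℝ) ^ (m - k) ≤ (N : ℝ) ^ m :=
      (pow_le_pow_left₀ (Nat.cast_nonneg _) ht' _).trans (pow_le_pow_right₀ hN' (Nat.sub_le _ _))
    have q4 := hcb k hk'
    have hA0 : (0 : ℝ) ≤ A := by linarith
    have hB0 : (0 : ℝ) ≤ 1 + Bd := by linarith
    calc (m.choose k : ℝ) * |(cc k : ℝ)| * |(d0 : ℝ)| ^ (m - k) * |(d1 : ℝ)| ^ k *
          (t0 : ℝ) ^ (m - k) * (1 + Bd) ^ m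
        ≤ (m.choose k : ℝ) * ((Nat.lcmUpto h : ℝ) ^ m * D) * A ^ (m - k) * A ^ k *
          (N : ℝ) ^ m * (1 + Bd) ^ m := by gcongr
      _ = (m.choose k : ℝ) * ((Nat.lcmUpto h : ℝ) ^ m * D * (N * A * (1 + Bd)) ^ m) := by
          have e1 : (A : ℝ) ^ m = A ^ k * A ^ (m - k) := by rw [← pow_add]; congr 1; omega
          rw [mul_pow, mul_pow, e1]; ring
  refine (Finset.sum_le_sum hb).trans ?_
  rw [← Finset.sum_mul]
  have hc : (∑ k ∈ range (m + 1), (m.choose k : ℝ)) = 2 ^ m := by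
    exact_mod_cast Nat.sum_range_choose m
  rw [hc]
  have : (2 : ℝ) ^ m * ((Nat.lcmUpto h : ℝ) ^ m * D * (N * A * (1 + Bd)) ^ m) =
      (Nat.lcmUpto h : ℝ) ^ m * D * (2 * N * A * (1 + Bd)) ^ m := by
    rw [mul_assoc 2 (N : ℝ) A, mul_assoc 2 ((N : ℝ) * A) (1 + Bd), mul_pow 2]; ring
  rw [this]

end

end Pool.Agent.H65.BF
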