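import Pool.Agent.H72.BF.Targets

open Polynomial Finset

namespace Pool.Agent.H65.BF

open Pool.Agent.H72.BF

noncomputable section

structure RepC {ι : Type} [Fintype ι] [DecidableEq ι] (δ : ℕ) (θ : ι → ℂ) : Prop where
  int : ∀ a : ℤ, Rep δ θ |(a : ℝ)| (a : ℂ)
  add : ∀ (Y Y' : ℝ) (x x' : ℂ), Rep δ θ Y x → Rep δ θ Y' x' → Rep δ θ (Y + Y') (x + x')
  smul : ∀ (Y : ℝ) (x : ℂ) (a : ℤ), Rep δ θ Y x → Rep δ θ (|(a : ℝ)| * Y) ((a : ℂ) * x)
  mul : ∀ (Y B : ℝ) (i : ι) (x : ℂ), IntB δ B (θ i) → Rep δ θ Y x →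
    Rep δ θ ((1 + B) * Y) (θ i * x)

theorem repC (h : T_REP) (ι : Type) [Fintype ι] [DecidableEq ι] (δ : ℕ) (θ : ι → ℂ)
    (hδ : 1 ≤ δ) : RepC δ θ := by
  obtain ⟨a, b, c, d⟩ := h ι δ θ hδ
  exact ⟨a, b, c, d⟩

theorem rep_mono {ι : Type} [Fintype ι] [DecidableEq ι] {δ : ℕ} {θ : ι → ℂ} {Y Y' : ℝ} {x : ℂ}
    (h : Rep δ θ Y x) (hY : Y ≤ Y') : Rep δ θ Y' x := by
  obtain ⟨c, hc, hx⟩ := h
  exact ⟨c, fun e => (hc e).trans hY, hx⟩

theorem RepC.pow {ι : Type} [Fintype ι] [DecidableEq ι] {δ : ℕ} {θ : ι → ℂ} (R : RepC δ θ)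
    {Y B : ℝ} {i : ι} {x : ℂ} (hB : IntB δ B (θ i)) (h : Rep δ θ Y x) (j : ℕ) :
    Rep δ θ ((1 + B) ^ j * Y) (θ i ^ j * x) := by
  induction j with
  | zero => simpa using h
  | succ j ih =>
    have := R.mul _ B i _ hB ih
    rw [pow_succ', pow_succ', mul_assoc, mul_assoc]
    exact this

theorem RepC.zero {ι : Type} [Fintype ι] [DecidableEq ι] {δ : ℕ} {θ : ι → ℂ} (R : RepC δ θ) :
    Rep δ θ 0 0 := by
  simpa using R.int 0

theorem RepC.sum {ι : Type} [Fintype ι] [DecidableEq ι] {δ : ℕ} {θ : ι → ℂ} (R : RepC δ θ)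
    {κ : Type*} (s : Finset κ) (Y : κ → ℝ) (x : κ → ℂ) (h : ∀ k ∈ s, Rep δ θ (Y k) (x k)) :
    Rep δ θ (∑ k ∈ s, Y k) (∑ k ∈ s, x k) := by
  classical
  induction s using Finset.induction_on with
  | empty => simpa using R.zero
  | insert a s ha ih =>
    rw [Finset.sum_insert ha, Finset.sum_insert ha]
    exact R.add _ _ _ _ (h a (Finset.mem_insert_self _ _))
      (ih fun k hk => h k (Finset.mem_insert_of_mem hk))

/-- the height bound is at least one, in particular nonnegative -/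
theorem intB_nonneg {δ : ℕ} {B : ℝ} {y : ℂ} (h : IntB δ B y) : 1 ≤ B := by
  obtain ⟨q, hm, hd, hb, -⟩ := h
  have := hb q.natDegree
  rw [hm.coeff_natDegree] at this
  simpa using this

end

end Pool.Agent.H65.BF
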